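import Mathlib
import Pool.Agent.MP_feb289_co.Extend

set_option autoImplicit false

namespace Pool.Agent.Results.MP_feb289_co.CharEleven

open MvPolynomial

/-- the linear form `∑ a j * x j` as a polynomial -/
noncomputable def form {K : Type} [Field K] {l : ℕ} (a : Fin l → K) : MvPolynomial (Fin l) K :=
  ∑ j, C (a j) * X j

/-- the kernel of the linear form with coefficients `a` -/
def hyp {K : Type} [Field K] {l : ℕ} (a : Fin l → K) : Submodule K (Fin l → K) where
  carrier := {v | ∑ j, a j * v j = 0}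
  add_mem' := by
    intro u v hu hv
    simp only [Set.mem_setOf_eq, Pi.add_apply, mul_add, Finset.sum_add_distrib] at hu hv ⊢
    rw [hu, hv, add_zero]
  zero_mem' := by simp
  smul_mem' := by
    intro c v hv
    simp only [Set.mem_setOf_eq, Pi.smul_apply, smul_eq_mul, mul_left_comm _ c,
      ← Finset.mul_sum] at hv ⊢
    rw [hv, mul_zero]

/-- the intersection lattice: all intersections of subfamilies of the hyperplanes -/
def interLattice {K : Type} [Field K] {l n : ℕ} (A : Fin n → Fin l → K) :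
    Set (Submodule K (Fin l → K)) :=
  {W | ∃ s : Finset (Fin n), W = ⨅ i ∈ s, hyp (A i)}

/-- the module of logarithmic vector fields -/
noncomputable def logDer {K : Type} [Field K] {l n : ℕ} (A : Fin n → Fin l → K) :
    Submodule (MvPolynomial (Fin l) K)
      (Derivation K (MvPolynomial (Fin l) K) (MvPolynomial (Fin l) K)) where
  carrier := {δ | ∀ i, form (A i) ∣ δ (form (A i))}
  add_mem' := fun h1 h2 i => dvd_add (h1 i) (h2 i)
  zero_mem' := fun _ => dvd_zero _
  smul_mem' := fun c _ h i => (h i).mul_left c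

open Pool.Agent.MP_feb289_co Pool.Agent.MP_feb289_co.Gen

theorem mem_hyp {K : Type} [Field K] {l : ℕ} (a v : Fin l → K) : v ∈ hyp a ↔ a ⬝ᵥ v = 0 :=
  Iff.rfl

theorem hyp_inj {K : Type} [Field K] {l n : ℕ} (A : Fin n → Fin l → K) (h0 : ∀ i, A i ≠ 0)
    (h : ∀ i j, i ≠ j → ∀ c : K, A i ≠ c • A j) : Function.Injective fun i => hyp (A i) := by
  intro i j hij
  by_contra hne
  obtain ⟨c, hc⟩ := smul_of_ker_le' (b := A i) (h0 j) fun v hv => by
    have h1 : hyp (A i) = hyp (A j) := hij
    rw [← mem_hyp, h1]; exact hv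
  exact h i j hne c hc

theorem free_iff {K : Type} [Field K] {l n : ℕ} (A : Fin n → Fin l → K) :
    Module.Free (MvPolynomial (Fin l) K) (logDer A) ↔
      Module.Free (MvPolynomial (Fin l) K) (GD A) := by
  let e := mkDerivationEquiv K (σ := Fin l) (A := MvPolynomial (Fin l) K)
  let e' : (Fin l → MvPolynomial (Fin l) K) ≃ₗ[MvPolynomial (Fin l) K]
      Derivation K (MvPolynomial (Fin l) K) (MvPolynomial (Fin l) K) :=
    { e.toAddEquiv with
      map_smul' := fun c θ => by
        apply derivation_ext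
        intro i
        simp [e, mkDerivationEquiv] }
  have h1 : ∀ (θ : Fin l → MvPolynomial (Fin l) K) (a : Fin l → K),
      e' θ (form a) = gapp a θ := by
    intro θ a
    simp [e', e, mkDerivationEquiv, form, gapp]
  have h2 : (GD A).map (e' : _ →ₗ[MvPolynomial (Fin l) K] _) = logDer A := by
    ext δ
    obtain ⟨θ, rfl⟩ := e'.surjective δ
    rw [Submodule.mem_map_equiv, LinearEquiv.symm_apply_apply, mem_GD]
    refine forall_congr' fun i => ?_
    rw [h1]; rfl
  have e2 := e'.ofSubmodules _ _ h2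
  exact ⟨fun _ => Module.Free.of_equiv e2.symm, fun _ => Module.Free.of_equiv e2⟩

theorem result (K : Type) [Field K] [CharP K 11] (hK : ∃ w : K, w ^ 2 = -1) (l : ℕ) (hl : 3 ≤ l) :
    ∃ A B : Fin 27 → Fin l → K,
      (∀ i, A i ≠ 0) ∧ (∀ i, B i ≠ 0) ∧
      Function.Injective (fun i => hyp (A i)) ∧ Function.Injective (fun i => hyp (B i)) ∧
      Nonempty ((interLattice A)ᵒᵈ ≃o (interLattice B)ᵒᵈ) ∧
      Module.Free (MvPolynomial (Fin l) K) (logDer A) ∧
      ¬ Module.Free (MvPolynomial (Fin l) K) (logDer B) := by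
  obtain ⟨w, hw⟩ := hK
  obtain ⟨m, rfl⟩ := Nat.exists_eq_add_of_le hl
  have hA0 := fun i => ext0_ne m (matA_ne w hw i)
  have hB0 := fun i => ext0_ne m (matB_ne w hw i)
  refine ⟨fun i => ext0 m (matA w i), fun i => ext0 m (matB w i), hA0, hB0,
    hyp_inj _ hA0 fun i j h => ext0_ne_smul m (ne_smul_of_cr (cr_ne w hw i j h).1),
    hyp_inj _ hB0 fun i j h => ext0_ne_smul m (ne_smul_of_cr (cr_ne w hw i j h).2), ?_,
    (free_iff _).2 (freeA' m w hw), fun h => not_freeB' m w hw ((free_iff _).1 h)⟩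
  have h1 : ∀ A : Fin 27 → Fin (3 + m) → K,
      interLattice A = Set.range fun s : Finset (Fin 27) => ⨅ i ∈ s, hyp (A i) := by
    intro A
    ext W
    exact exists_congr fun s => eq_comm
  have h2 : ∀ (A : Fin 27 → Fin (3 + m) → K) (s t : Finset (Fin 27)),
      (⨅ i ∈ s, hyp (A i)) ≤ (⨅ i ∈ t, hyp (A i)) ↔
        ∀ j ∈ t, ∀ v : Fin (3 + m) → K, (∀ i ∈ s, A i ⬝ᵥ v = 0) → A j ⬝ᵥ v = 0 := by
    intro A s t
    simp only [SetLike.le_def, Submodule.mem_iInf, mem_hyp]
    exact ⟨fun h j hj v hv => h hv j hj, fun h v hv j hj => h j hj v hv⟩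
  rw [h1, h1]
  obtain ⟨e⟩ := rangeIso (fun s : Finset (Fin 27) => ⨅ i ∈ s, hyp (ext0 m (matA w i)))
    (fun s : Finset (Fin 27) => ⨅ i ∈ s, hyp (ext0 m (matB w i))) fun s t => by
      rw [h2 (fun i => ext0 m (matA w i)), h2 (fun i => ext0 m (matB w i))]
      simp only [span_transfer m w hw]
  exact ⟨e.dual⟩

end Pool.Agent.Results.MP_feb289_co.CharEleven
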